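import Pool.Agent.H102R3.SCY

set_option autoImplicit false

/-!
# MP_6a785f_an, Q1: approximation numbers of Schatten class identities near full rank

The bound of Q1 holds: for `1 < p ≤ 2 ≤ q < ∞` and every fixed `c ∈ (0,1)`,
`a_n(id : S_p^N → S_q^N) ≤ C(p,q,c) N^{λ/2 - 2} √(N² - n + 1)` for all `n, N` with
`(1 - c) N² ≤ n ≤ N² - c N^λ + 1`, without logarithm.  Definitions (in `Pool.Agent.H102R3`):
* `sv A i`, `i < N`, are the singular values of `A` (Mathlib's `LinearMap.singularValues` of
  `Matrix.toEuclideanLin A`) and `schatten p A = (∑ i, (sv A i) ^ p) ^ (1 / p)`;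
* `approxNum N p q n` is the infimum of all `ε ≥ 0` for which some linear map `S` of rank `< n` on
  the real `N × N` matrices satisfies `‖A - S A‖_{S_q} ≤ ε ‖A‖_{S_p}` for all `A`, i.e. the
  `n`-th approximation number;
* `lam p q = max (3 - 2 / p) (1 + 2 / q)`.

Proof idea: `S = (1 - k/N²)^{-1} (1 - P)`, `P` a random orthogonal projection of rank
`k = N² - n + 1`; by left invariance of the Haar measure and Jensen's inequality the norm of
`P - k/N²` is at most `N^{-2}` times the mean norm of `GᵀG - k` for a Gaussian `k × N²` matrix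
`G`; the latter is decoupled by the rotation invariance of Gaussian measures and bounded on
dyadic blocks of singular values by a two step union bound over nets.
-/

namespace Pool.Agent.Results.MP_6a785f_an.GordonKonigSchutt

open Pool.H102.SC

theorem result : ∀ c : ℝ, 0 < c → c < 1 → ∀ p q : ℝ, 1 < p → p ≤ 2 → 2 ≤ q →
    ∃ C : ℝ, ∀ N n : ℕ, 1 ≤ N → (1 - c) * (N : ℝ) ^ 2 ≤ n →
      (n : ℝ) ≤ (N : ℝ) ^ 2 - c * (N : ℝ) ^ (lam p q) + 1 →
      approxNum N p q n ≤
        C * (N : ℝ) ^ (lam p q / 2 - 2) * Real.sqrt ((N : ℝ) ^ 2 - n + 1) :=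
  fun c hc0 hc1 p q hp1 hp2 hq => final c hc0 hc1 p q hp1 hp2 hq

end Pool.Agent.Results.MP_6a785f_an.GordonKonigSchutt
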